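import Pool.Agent.Helper26.HN.Stmts

/-!
# Sheet HN, row NRL: number of electrons near the nuclei
-/

set_option autoImplicit false

namespace Pool.Agent.Helper73.HN

open MeasureTheory Filter Pool.Agent.Helper95 Pool.Agent.Helper95.PW Pool.Agent.Helper95.LN
open Pool.Agent.Helper26.HN

theorem nl_kin {n : ℕ} (u : Wf n) : 0 ≤ kin u := by
  unfold kin PW.sq
  exact Finset.sum_nonneg fun k _ => Finset.sum_nonneg fun i _ => Finset.sum_nonneg fun s _ =>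
    integral_nonneg fun x => sq_nonneg _

theorem nl_Q {M t : ℝ} (hM : 0 < M) (ht : 0 ≤ t) :
    M ^ (2 / 5 : ℝ) * (M * t ^ 5) ^ (3 / 5 : ℝ) = M * t ^ 3 := by
  rw [Real.mul_rpow hM.le (by positivity), ← mul_assoc, ← Real.rpow_add hM]
  have h1 : (2 / 5 : ℝ) + 3 / 5 = 1 := by norm_num
  have h2 : (t ^ 5) ^ (3 / 5 : ℝ) = t ^ 3 := by
    rw [← Real.rpow_natCast, ← Real.rpow_natCast, ← Real.rpow_mul ht]
    norm_num
  rw [h1, h2, Real.rpow_one]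

theorem NRL (h1 : ST_NRC) : ST_NRL := by
  obtain ⟨C, hC, h⟩ := h1
  refine ⟨5 * C, by positivity, ?_⟩
  intro n M X d r u hS hr hrd hu ha hq
  have hk := nl_kin u
  rcases Nat.eq_zero_or_pos M with rfl | hM
  · have e : one (nbr X r) u = 0 := by
      unfold one nbr
      simp
    rw [e]
    positivity
  have hM' : (0 : ℝ) < M := by exact_mod_cast hM
  obtain ⟨κ, hκ⟩ : ∃ κ : ℝ, κ = kin u * r ^ 2 := ⟨_, rfl⟩
  have hκ0 : 0 ≤ κ := by rw [hκ]; positivity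
  obtain ⟨t, ht⟩ : ∃ t : ℝ, t = (κ / M) ^ (1 / 5 : ℝ) := ⟨_, rfl⟩
  have ht0 : 0 ≤ t := by rw [ht]; positivity
  have ht5 : κ = M * t ^ 5 := by
    have h2 : t ^ 5 = κ / M := by
      rw [ht, ← Real.rpow_natCast, ← Real.rpow_mul (by positivity)]
      norm_num
    rw [h2]
    field_simp
  have hm1 : 1 ≤ max 1 ⌈t⌉₊ := le_max_left _ _
  obtain ⟨m, hm⟩ : ∃ m : ℕ, m = max 1 ⌈t⌉₊ := ⟨_, rfl⟩
  rw [← hm] at hm1
  have hm1' : (1 : ℝ) ≤ m := by exact_mod_cast hm1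
  have hmt : t ≤ m := (Nat.le_ceil t).trans (by rw [hm]; exact_mod_cast le_max_right _ _)
  have hmt1 : (m : ℝ) ≤ 1 + t := by
    rw [hm, Nat.cast_max, Nat.cast_one]
    exact max_le (by linarith) (by linarith [(Nat.ceil_lt_add_one ht0).le])
  have h2 := h n M X d r u m hS hr hrd hu ha hq hm1
  rw [← hκ] at h2 ⊢
  have hQ : (M : ℝ) ^ (2 / 5 : ℝ) * κ ^ (3 / 5 : ℝ) = M * t ^ 3 := by
    rw [ht5]
    exact nl_Q hM' ht0
  rw [hQ]
  refine h2.trans ?_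
  have h3 : (m : ℝ) ^ 3 ≤ 4 * (1 + t ^ 3) := by
    have h4 : (m : ℝ) ^ 3 ≤ (1 + t) ^ 3 := pow_le_pow_left₀ (by positivity) hmt1 3
    nlinarith [mul_nonneg (add_nonneg zero_le_one ht0) (sq_nonneg (1 - t))]
  have h5 : κ / (m : ℝ) ^ 2 ≤ M * t ^ 3 := by
    rw [div_le_iff₀ (by positivity), ht5]
    have h6 : t ^ 2 ≤ (m : ℝ) ^ 2 := pow_le_pow_left₀ ht0 hmt 2
    have h7 : 0 ≤ (M : ℝ) * t ^ 3 := by positivity
    nlinarith [mul_le_mul_of_nonneg_left h6 h7]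
  have h8 : (M : ℝ) * (m : ℝ) ^ 3 ≤ M * (4 * (1 + t ^ 3)) := mul_le_mul_of_nonneg_left h3 hM'.le
  have h9 : 0 ≤ (M : ℝ) * t ^ 3 := by positivity
  have h10 : (M : ℝ) * (m : ℝ) ^ 3 + κ / (m : ℝ) ^ 2 ≤ 5 * (M + M * t ^ 3) := by
    nlinarith
  calc C * ((M : ℝ) * (m : ℝ) ^ 3 + κ / (m : ℝ) ^ 2) ≤ C * (5 * (M + M * t ^ 3)) :=
        mul_le_mul_of_nonneg_left h10 hC.le
    _ = 5 * C * (M + M * t ^ 3) := by ring

end Pool.Agent.Helper73.HN
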